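import Pool.Agent.MP_2c73ad_mp.H67.Sharp

/-! The March-Young bound with both constants and an error term. -/

open MeasureTheory Metric Set Real Filter Pool.Agent.MP_2c73ad_mp.H42
open scoped NNReal ENNReal

namespace Pool.Agent.MP_2c73ad_mp.H74

theorem grad_pos {ρ : (Fin 3 → ℝ) → ℝ} {G : Fin 3 → (Fin 3 → ℝ) → ℝ} (h0 : ∀ x, 0 ≤ ρ x)
    (hN : ∫ x, ρ x ≠ 0) (hH : InH1 (fun x => √(ρ x)) G) : 0 < ∑ k, ∫ x, G k x ^ 2 := by
  have W0 : 0 ≤ ∑ k, ∫ x, G k x ^ 2 :=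
    Finset.sum_nonneg fun k _ => integral_nonneg fun x => sq_nonneg _
  refine W0.lt_of_ne fun hW => hN ?_
  obtain ⟨g, mg, hg⟩ := hH.1.1.aemeasurable
  have hH' : InH1 g G :=
    ⟨hH.1.ae_eq hg, fun k => ⟨(hH.2 k).1, fun ϕ h1 h3 => by
      rw [← (hH.2 k).2 ϕ h1 h3]
      exact integral_congr_ae (hg.mono fun x hx => by simp only [← hx])⟩⟩
  have iG : ∀ k, Integrable fun x => G k x ^ 2 := fun k => (hH.2 k).1.integrable_sq
  have hz : ∫⁻ x, ENNReal.ofReal (∑ k, G k x ^ 2) = 0 := by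
    rw [← ofReal_integral_eq_lintegral_ofReal (integrable_finsetSum _ fun k _ => iG k)
      (Eventually.of_forall fun x => Finset.sum_nonneg fun k _ => sq_nonneg _),
      integral_finsetSum _ fun k _ => iG k, ← hW, ENNReal.ofReal_zero]
  have hc : ∀ n : ℕ, ∃ c : ℝ, ∀ᵐ y, y ∈ ball (0 : Fin 3 → ℝ) (n + 1) → g y = c := by
    intro n
    obtain ⟨x, hx⟩ := H67.poincare mg hH' 0 (s := n + 1) (by positivity)
    have h1 : ∫⁻ x in ball (0 : Fin 3 → ℝ) (2 * (n + 1)), ENNReal.ofReal (∑ k, G k x ^ 2) = 0 :=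
      le_antisymm ((setLIntegral_le_lintegral _ _).trans hz.le) bot_le
    rw [h1, mul_zero, nonpos_iff_eq_zero,
      lintegral_eq_zero_iff (f := fun y => ENNReal.ofReal ((g y - g x) ^ 2))
        ((mg.sub measurable_const).pow_const 2).ennreal_ofReal] at hx
    refine ⟨g x, ((ae_restrict_iff' measurableSet_ball).1 hx).mono fun y hy hb => ?_⟩
    have h2 : (g y - g x) ^ 2 ≤ 0 := ENNReal.ofReal_eq_zero.1 (hy hb)
    exact sub_eq_zero.1 (pow_eq_zero_iff two_ne_zero |>.1 (le_antisymm h2 (sq_nonneg _)))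
  choose c hc using hc
  have hall := ae_all_iff.2 hc
  have hcc : ∀ n, c n = c 0 := by
    intro n
    have hpos : volume (ball (0 : Fin 3 → ℝ) 1) ≠ 0 := (measure_ball_pos volume _ one_pos).ne'
    obtain ⟨y, hy, hy'⟩ := Measure.exists_mem_of_measure_ne_zero_of_ae hpos (ae_restrict_of_ae hall)
    rw [← hy' n (ball_subset_ball (by linarith [Nat.cast_nonneg (α := ℝ) n]) hy),
      ← hy' 0 (by simpa using hy)]
  have hconst : g =ᵐ[volume] fun _ => c 0 := by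
    filter_upwards [hall] with y hy
    obtain ⟨n, hn⟩ := exists_nat_gt ‖y‖
    rw [hy n (mem_ball_zero_iff.2 (by linarith)), hcc]
  have hm := (memLp_const_iff (by norm_num) (by norm_num)).1 (hH'.1.ae_eq hconst)
  rw [measure_univ_of_isAddLeftInvariant] at hm
  have c0 : c 0 = 0 := hm.resolve_right (lt_irrefl _)
  refine integral_eq_zero_of_ae ?_
  filter_upwards [hg, hconst] with x h1 h2
  rw [h2, c0] at h1
  exact le_antisymm (Real.sqrt_eq_zero'.1 h1) (h0 x)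

theorem both : ∃ C : ℝ, 0 < C ∧ ∀ (q N : ℕ), 1 ≤ q → 1 ≤ N →
    ∀ (ρ : (Fin 3 → ℝ) → ℝ) (G : Fin 3 → (Fin 3 → ℝ) → ℝ),
      (∀ x, 0 ≤ ρ x) → ∫ x, ρ x = N → InH1 (fun x => √(ρ x)) G →
      ∀ W θ : ℝ, W = ∑ k, ∫ x, G k x ^ 2 →
      θ = W / (W + (q : ℝ) ^ (-(2 / 3) : ℝ) *
        (∫⁻ x, ENNReal.ofReal (ρ x ^ (5 / 3 : ℝ))).toReal) →
      ∃ (φ : Fin N → Fin q → (Fin 3 → ℝ) → ℂ) (D : Fin N → Fin q → Fin 3 → (Fin 3 → ℝ) → ℂ),
        (∀ i σ, InH1 (φ i σ) (D i σ)) ∧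
        (∀ i j, ∑ σ, ∫ x, (starRingEnd ℂ) (φ i σ x) * φ j σ x = if i = j then 1 else 0) ∧
        (∀ᵐ x, ∑ i, ∑ σ, ‖φ i σ x‖ ^ 2 = ρ x) ∧
        ENNReal.ofReal (∑ i, ∑ σ, ∑ k, ∫ x, ‖D i σ k x‖ ^ 2) ≤
          ENNReal.ofReal ((1 + C * θ ^ (1 / 53 : ℝ)) * (q : ℝ) ^ (-(2 / 3) : ℝ) *
              (3 / 5 * (6 * π ^ 2) ^ (2 / 3 : ℝ))) *
              (∫⁻ x, ENNReal.ofReal (ρ x ^ (5 / 3 : ℝ))) +
            ENNReal.ofReal W := by
  obtain ⟨C1, hC1, hu⟩ := spin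
  obtain ⟨C2, hC2, hs⟩ := H67.sharp
  refine ⟨2 * C1 + (1 + 2 * C2), by positivity, ?_⟩
  intro q N hq hN ρ G h0 hρ hH W θ hW hθ
  have K1 : (1 : ℝ) ≤ 3 / 5 * (6 * π ^ 2) ^ (2 / 3 : ℝ) := by
    have h1 : (8 : ℝ) ≤ 6 * π ^ 2 := by nlinarith [pi_gt_three]
    have h2 := Real.rpow_le_rpow (by norm_num) h1 (show (0 : ℝ) ≤ 2 / 3 by norm_num)
    have h3 : (8 : ℝ) ^ (2 / 3 : ℝ) = 4 := by
      rw [show (8 : ℝ) = 2 ^ (3 : ℝ) by norm_num, ← Real.rpow_mul (by norm_num)]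
      norm_num
    linarith
  have W0 : 0 < W := hW ▸ grad_pos h0 (by rw [hρ]; positivity) hH
  have hu' := hu q N hq hN ρ G h0 hρ hH
  have hs' := fun ε h1 h2 => hs ε h1 h2 q N hq hN ρ G h0 hρ hH
  rw [← hW] at hu'
  simp only [← hW] at hs'
  have hQ : 0 < (q : ℝ) ^ (-(2 / 3) : ℝ) := by positivity
  generalize (q : ℝ) ^ (-(2 / 3) : ℝ) = Q at *
  generalize 3 / 5 * (6 * π ^ 2) ^ (2 / 3 : ℝ) = K at *
  generalize (∫⁻ x, ENNReal.ofReal (ρ x ^ (5 / 3 : ℝ))) = I at *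
  have hA : 0 ≤ Q * I.toReal := mul_nonneg hQ.le ENNReal.toReal_nonneg
  have θ0 : 0 < θ := by rw [hθ]; positivity
  have θ1 : θ ≤ 1 := by rw [hθ, div_le_one (by positivity)]; linarith
  have θe : θ * (W + Q * I.toReal) = W := by rw [hθ]; field_simp
  obtain ⟨e, he⟩ : ∃ e, e = θ ^ (1 / 53 : ℝ) := ⟨_, rfl⟩
  rw [← he]
  have e0 : 0 < e := by rw [he]; positivity
  have e1 : e ≤ 1 := he ▸ Real.rpow_le_one θ0.le θ1 (by norm_num)
  have e53 : e ^ 53 = θ := by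
    rw [he, ← Real.rpow_natCast, ← Real.rpow_mul θ0.le]
    norm_num
  have eθ : θ ≤ e := e53 ▸ pow_le_of_le_one e0.le e1 (by norm_num)
  by_cases hc : Q * I.toReal ≤ W
  · by_cases hI : I = ⊤
    · obtain ⟨φ, D, h1, h2, h3, -⟩ := hu'
      refine ⟨φ, D, h1, h2, h3, ?_⟩
      rw [hI, ENNReal.mul_top (ENNReal.ofReal_pos.2 (by positivity)).ne', top_add]
      exact le_top
    obtain ⟨φ, D, h1, h2, h3, h4⟩ := hu'
    refine ⟨φ, D, h1, h2, h3, h4.trans (add_le_add_left (mul_le_mul_left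
      (ENNReal.ofReal_le_ofReal ?_) _) _)⟩
    have h5 : 1 / 2 ≤ e := by
      refine le_trans ?_ eθ
      rw [hθ, div_le_div_iff₀ (by norm_num) (by positivity)]
      linarith
    have h6 : C1 ≤ 1 + (2 * C1 + (1 + 2 * C2)) * e := by nlinarith
    calc C1 * Q ≤ (1 + (2 * C1 + (1 + 2 * C2)) * e) * Q := mul_le_mul_of_nonneg_right h6 hQ.le
      _ ≤ _ := le_mul_of_one_le_right (by positivity) K1
  · have hI : I ≠ ⊤ := by
      rintro rfl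
      exact hc (by simpa using W0.le)
    obtain ⟨φ, D, h1, h2, h3, h4⟩ := hs' e e0 e1
    refine ⟨φ, D, h1, h2, h3, h4.trans (le_trans ?_ le_self_add)⟩
    rw [← ENNReal.ofReal_toReal hI, ← ENNReal.ofReal_mul (by positivity),
      ← ENNReal.ofReal_mul (by positivity), ← ENNReal.ofReal_add (by positivity) (by positivity)]
    refine ENNReal.ofReal_le_ofReal ?_
    obtain ⟨a, ha⟩ : ∃ a, a = Q * I.toReal := ⟨_, rfl⟩
    rw [← ha] at hA hc θe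
    have h5 : C2 / e ^ 52 * W ≤ 2 * C2 * e * a := by
      rw [div_mul_eq_mul_div, div_le_iff₀ (by positivity)]
      have h6 : W ≤ 2 * θ * a := by nlinarith
      calc C2 * W ≤ C2 * (2 * θ * a) := mul_le_mul_of_nonneg_left h6 hC2.le
        _ = _ := by rw [← e53]; ring
    have h7 : 2 * C2 * e * a ≤ 2 * C2 * e * a * K := le_mul_of_one_le_right (by positivity) K1
    have h8 : 0 ≤ 2 * C1 * e * a * K := by positivity
    calc (1 + e) * Q * K * I.toReal + C2 / e ^ 52 * W = (1 + e) * a * K + C2 / e ^ 52 * W := by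
          rw [ha]; ring
      _ ≤ (1 + (2 * C1 + (1 + 2 * C2)) * e) * a * K := by nlinarith
      _ = _ := by rw [ha]; ring

theorem cross : ∃ C : ℝ, 0 < C ∧ ∀ (q N : ℕ), 1 ≤ q → 1 ≤ N →
    ∀ (ρ : (Fin 3 → ℝ) → ℝ) (G : Fin 3 → (Fin 3 → ℝ) → ℝ),
      (∀ x, 0 ≤ ρ x) → ∫ x, ρ x = N → InH1 (fun x => √(ρ x)) G →
      ∃ (φ : Fin N → Fin q → (Fin 3 → ℝ) → ℂ) (D : Fin N → Fin q → Fin 3 → (Fin 3 → ℝ) → ℂ),
        (∀ i σ, InH1 (φ i σ) (D i σ)) ∧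
        (∀ i j, ∑ σ, ∫ x, (starRingEnd ℂ) (φ i σ x) * φ j σ x = if i = j then 1 else 0) ∧
        (∀ᵐ x, ∑ i, ∑ σ, ‖φ i σ x‖ ^ 2 = ρ x) ∧
        ENNReal.ofReal (∑ i, ∑ σ, ∑ k, ∫ x, ‖D i σ k x‖ ^ 2) ≤
          ENNReal.ofReal ((q : ℝ) ^ (-(2 / 3) : ℝ) * (3 / 5 * (6 * π ^ 2) ^ (2 / 3 : ℝ))) *
              (∫⁻ x, ENNReal.ofReal (ρ x ^ (5 / 3 : ℝ))) +
            ENNReal.ofReal (∑ k, ∫ x, G k x ^ 2) +
            ENNReal.ofReal C * (ENNReal.ofReal ((q : ℝ) ^ (-(2 / 3) : ℝ)) *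
                ∫⁻ x, ENNReal.ofReal (ρ x ^ (5 / 3 : ℝ))) ^ (52 / 53 : ℝ) *
              ENNReal.ofReal (∑ k, ∫ x, G k x ^ 2) ^ (1 / 53 : ℝ) := by
  obtain ⟨C, hC, h⟩ := both
  have K0 : (0 : ℝ) < 3 / 5 * (6 * π ^ 2) ^ (2 / 3 : ℝ) := by positivity
  refine ⟨C * (3 / 5 * (6 * π ^ 2) ^ (2 / 3 : ℝ)), by positivity, ?_⟩
  intro q N hq hN ρ G h0 hρ hH
  obtain ⟨φ, D, h1, h2, h3, h4⟩ := h q N hq hN ρ G h0 hρ hH _ _ rfl rfl
  refine ⟨φ, D, h1, h2, h3, h4.trans ?_⟩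
  have W0 := grad_pos h0 (by rw [hρ]; positivity) hH
  have hQ : 0 < (q : ℝ) ^ (-(2 / 3) : ℝ) := by positivity
  generalize (q : ℝ) ^ (-(2 / 3) : ℝ) = Q at hQ ⊢
  generalize 3 / 5 * (6 * π ^ 2) ^ (2 / 3 : ℝ) = K at K0 ⊢
  generalize (∫⁻ x, ENNReal.ofReal (ρ x ^ (5 / 3 : ℝ))) = I
  generalize ∑ k, ∫ x, G k x ^ 2 = W at W0 ⊢
  by_cases hI : I = ⊤
  · rw [hI, ENNReal.mul_top (a := ENNReal.ofReal (Q * K))
      (ENNReal.ofReal_pos.2 (by positivity)).ne', top_add, top_add]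
    exact le_top
  lift I to ℝ≥0 using hI
  obtain ⟨θ, hθ⟩ : ∃ θ, θ = W / (W + Q * I) := ⟨_, rfl⟩
  have θ0 : 0 ≤ θ := by rw [hθ]; positivity
  have hA : (0 : ℝ) ≤ Q * I := by positivity
  have h5 : θ * (Q * I) ≤ W := by
    rw [hθ, div_mul_eq_mul_div, div_le_iff₀ (by positivity)]
    nlinarith
  have h6 : θ ^ (1 / 53 : ℝ) * (Q * I) ≤ (Q * I) ^ (52 / 53 : ℝ) * W ^ (1 / 53 : ℝ) := by
    have h7 := Real.rpow_le_rpow (by positivity) h5 (show (0 : ℝ) ≤ 1 / 53 by norm_num)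
    have h8 : Q * I = (Q * I) ^ (52 / 53 : ℝ) * (Q * I) ^ (1 / 53 : ℝ) := by
      rw [← Real.rpow_add' hA (by norm_num)]
      norm_num
    rw [Real.mul_rpow θ0 hA] at h7
    calc _ = (Q * I) ^ (52 / 53 : ℝ) * (θ ^ (1 / 53 : ℝ) * (Q * I) ^ (1 / 53 : ℝ)) := by
          conv_lhs => rw [h8]
          ring
      _ ≤ _ := mul_le_mul_of_nonneg_left h7 (by positivity)
  rw [ENNReal.coe_toReal, ← hθ, ← ENNReal.ofReal_coe_nnreal, ← ENNReal.ofReal_mul hQ.le,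
    ENNReal.ofReal_rpow_of_nonneg hA (by norm_num),
    ENNReal.ofReal_rpow_of_nonneg W0.le (by norm_num), ← ENNReal.ofReal_mul (by positivity),
    ← ENNReal.ofReal_mul (by positivity), ← ENNReal.ofReal_mul (by positivity),
    ← ENNReal.ofReal_mul (by positivity), ← ENNReal.ofReal_add (by positivity) W0.le,
    ← ENNReal.ofReal_add (by positivity) W0.le,
    ← ENNReal.ofReal_add (by positivity) (by positivity)]
  refine ENNReal.ofReal_le_ofReal ?_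
  nlinarith [mul_le_mul_of_nonneg_left h6 (mul_pos hC K0).le]

end Pool.Agent.MP_2c73ad_mp.H74
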